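import Pool.Agent.Helper49.SG.Num
import Pool.Agent.Helper49.StarLink

/-!
# The star `d`-process is not contiguous to the random regular graph, for all large `d`

The star `d`-process starts from `n` isolated vertices. In each step a random vertex `v` of minimum degree is joined
to a random set of `d - d(v)` other vertices of degree less than `d`. So each step saturates the vertex `v`, and the
edges which are present after `t` steps are covered by `t` vertices. If the graph is `d`-regular after `n - j` steps, it
has an independent set of `j` vertices.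

The theorem (`result`): for every `d ≥ e ^ 5000` the event that there is an independent set of at least
`n / d ^ (19/20)` vertices has probability tending to `0` for the uniform `d`-regular graph and, for the star `d`-process
conditioned on its final graph being `d`-regular, at least a constant `c(d) > 0` for all large `n` with `d n` even. In
particular the two models are not contiguous.

## The proof

* Uniform model: for a fixed set `S` of `s = n / Y` vertices, `Y` the least integer `≥ d ^ (19/20)`, switchings show that the
  probability that `S` is independent is at most `2 ^ (-W s)`, `W` about `4 log d`, and there are at most `(6 Y) ^ s`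
  such sets (files `Switch`, `SG/Unif`).
* Star process: besides the vertex `v` of the step also neighbours of it can be saturated. It is shown that with
  probability `≥ c(d)` at least `j ≥ n / d ^ (19/20)` vertices are saturated as neighbours only, so that the process is
  finished after `n - j` steps. For this, let `Ψ = (n - t - ∑ (1 - φ(deg u, λ))) / n`, where the sum is over the unsaturated
  vertices `u` after `t` steps, `λ` is about `d t / n` and `φ` is a difference of two exponential martingales, with the
  parameters `θ` and `13 θ / 12`, `θ ^ 2 d ≈ (8/5) log d`. The mean of `Ψ` decreases by small amounts only, it starts at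
  `b / 2` or more, `b` about `d ^ (-14/15)`, and at the end it is not positive unless `j` vertices were saturated as
  neighbours only (files `StarStep`, `StarInd`, `SG/Param`, `SG/Final`, `SG/Num`).
-/

set_option autoImplicit false
open Classical
open Filter Topology

namespace Pool.Agent.Results.MP_fb9f4e_pr.LargeDegrees

/-- `G` is `d`-regular. -/
def Regular {n : ℕ} (d : ℕ) (G : SimpleGraph (Fin n)) : Prop := ∀ v, G.degree v = d

/-- The vertices of minimum degree. -/
noncomputable def minimal {n : ℕ} (G : SimpleGraph (Fin n)) : Finset (Fin n) :=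
  Finset.univ.filter fun w => ∀ u, G.degree w ≤ G.degree u

/-- The vertices other than `v` of degree less than `d`, not yet joined to `v`. -/
noncomputable def available {n : ℕ} (d : ℕ) (G : SimpleGraph (Fin n)) (v : Fin n) : Finset (Fin n) :=
  Finset.univ.filter fun u => u ≠ v ∧ G.degree u < d ∧ ¬ G.Adj v u

/-- The graph `G` with `v` joined to each vertex of `S`. -/
def addStar {n : ℕ} (G : SimpleGraph (Fin n)) (v : Fin n) (S : Finset (Fin n)) : SimpleGraph (Fin n) :=
  G ⊔ SimpleGraph.fromRel fun x y => x = v ∧ y ∈ S

/-- The probability that a step of the star `d`-process leads from `G` to `H`: a random vertex `v` of minimum degree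
is joined to a random set of `d - d(v)` available vertices. A `d`-regular graph stays; if the set does not exist,
the process dies (all entries are `0`). -/
noncomputable def step (d n : ℕ) : Matrix (SimpleGraph (Fin n)) (SimpleGraph (Fin n)) ℝ := fun G H =>
  if Regular d G then (if H = G then 1 else 0) else
    ∑ v ∈ minimal G, ∑ S ∈ (available d G v).powersetCard (d - G.degree v),
      (if H = addStar G v S then (1 : ℝ) else 0) /
        (((minimal G).card : ℝ) * (((available d G v).card.choose (d - G.degree v) : ℕ) : ℝ))

/-- The probability of `A` for the uniform `d`-regular graph on `n` vertices. -/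
noncomputable def uniformProb (d n : ℕ) (A : Set (SimpleGraph (Fin n))) : ℝ :=
  ((Finset.univ.filter fun H : SimpleGraph (Fin n) => Regular d H ∧ H ∈ A).card : ℝ) /
    ((Finset.univ.filter fun H : SimpleGraph (Fin n) => Regular d H).card : ℝ)

/-- The probability of `A` for the final graph of the star `d`-process on `n` vertices, conditioned on being
`d`-regular (there are at most `n` steps, and `⊥` is the graph without edges). -/
noncomputable def starProb (d n : ℕ) (A : Set (SimpleGraph (Fin n))) : ℝ :=
  (∑ H ∈ Finset.univ.filter (fun H : SimpleGraph (Fin n) => Regular d H ∧ H ∈ A), (step d n ^ n) ⊥ H) /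
    ∑ H ∈ Finset.univ.filter (fun H : SimpleGraph (Fin n) => Regular d H), (step d n ^ n) ⊥ H

/-- `n → ∞` with `d n` even. -/
def evenTop (d : ℕ) : Filter ℕ := atTop ⊓ 𝓟 {n | Even (d * n)}

/-- The two models are contiguous: for every sequence of events the probability tends to `1` for one if and only if
it does for the other. -/
def Contiguous (d : ℕ) : Prop :=
  ∀ A : (n : ℕ) → Set (SimpleGraph (Fin n)),
    (Tendsto (fun n => uniformProb d n (A n)) (evenTop d) (𝓝 1) ↔
      Tendsto (fun n => starProb d n (A n)) (evenTop d) (𝓝 1))

/-- There is an independent set of at least `n / d ^ (19/20)` vertices. -/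
def largeIndependent (d n : ℕ) : Set (SimpleGraph (Fin n)) :=
  {H | ∃ I : Finset (Fin n), (∀ x ∈ I, ∀ y ∈ I, ¬ H.Adj x y) ∧ (n : ℝ) ≤ (d : ℝ) ^ (19 / 20 : ℝ) * I.card}

theorem step_mulVec (d n : ℕ) (f : SimpleGraph (Fin n) → ℝ) :
    (step d n).mulVec f = Pool.Agent.Helper49.Star.step d f := by
  refine Pool.Agent.Helper49.Star.mulVec_eq_step (fun G H => ?_) f
  unfold step Regular
  by_cases h : ∀ v, G.degree v = d
  · rw [if_pos h, if_pos h]
  · rw [if_neg h, if_neg h]
    rfl

/-- The uniform model. -/
theorem uniform_part {d : ℕ} (hd : Real.exp 5000 ≤ d) :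
    Tendsto (fun n => uniformProb d n (largeIndependent d n)) atTop (𝓝 0) := by
  obtain ⟨Y, hY, h⟩ := Pool.Agent.Helper49.SG.unif_num hd
  refine squeeze_zero (fun n => ?_) (fun n => ?_) h
  · unfold uniformProb
    positivity
  · unfold uniformProb
    have e : (Finset.univ.filter fun H : SimpleGraph (Fin n) => Regular d H) =
        Finset.univ.filter (fun H : SimpleGraph (Fin n) => ∀ v, H.degree v = d) := by
      ext H
      exact ⟨fun h => Finset.mem_filter.2 ⟨Finset.mem_univ _, (Finset.mem_filter.1 h).2⟩,
        fun h => Finset.mem_filter.2 ⟨Finset.mem_univ _, (Finset.mem_filter.1 h).2⟩⟩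
    rw [e]
    refine div_le_div_of_nonneg_right ?_ (Nat.cast_nonneg _)
    refine Nat.cast_le.2 (Finset.card_le_card fun H hH => ?_)
    simp only [Finset.mem_filter, Finset.mem_univ, true_and] at hH ⊢
    obtain ⟨h1, I, h2, h3⟩ := hH
    refine ⟨h1, I, h2, ?_⟩
    have h4 : (n : ℝ) ≤ Y * I.card := h3.trans (mul_le_mul_of_nonneg_right hY (Nat.cast_nonneg _))
    exact_mod_cast h4

/-- The star process. -/
theorem star_part {d : ℕ} (hd : Real.exp 5000 ≤ d) : ∃ c : ℝ, 0 < c ∧ ∀ᶠ n : ℕ in atTop, Even (d * n) →
    0 < ∑ H ∈ Finset.univ.filter (fun H : SimpleGraph (Fin n) => Regular d H), (step d n ^ n) ⊥ H ∧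
    c ≤ starProb d n (largeIndependent d n) := by
  obtain ⟨Y, hY2, hY, c, hc, h⟩ := Pool.Agent.Helper49.SG.star_num hd
  refine ⟨c, hc, ?_⟩
  filter_upwards [h, eventually_ge_atTop 2] with n hn hn2 hev
  have hcs := hn hev
  obtain ⟨j, hj⟩ : ∃ j, j = n / Y + 1 := ⟨_, rfl⟩
  rw [← hj] at hcs
  have hY0 : 0 < Y := by omega
  have hjn : j ≤ n := by
    have h1 : n / Y ≤ n / 2 := Nat.div_le_div_left hY2 (by norm_num)
    omega
  have hnYj : n ≤ Y * j := by
    have h1 : n < Y * (n / Y + 1) := Nat.lt_mul_div_succ n hY0
    rw [← hj] at h1
    exact h1.le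
  have hstep := step_mulVec d n
  unfold starProb
  rw [Pool.Agent.Helper49.Star.sum_pow_eq hstep, Pool.Agent.Helper49.Star.sum_pow_eq hstep]
  obtain ⟨f, hf⟩ : ∃ f : SimpleGraph (Fin n) → ℝ, f = (fun H => if H ∈ Finset.univ.filter
      (fun H : SimpleGraph (Fin n) => Regular d H ∧ H ∈ largeIndependent d n) then 1 else 0) := ⟨_, rfl⟩
  rw [← hf]
  have hf0 : ∀ G, 0 ≤ f G := by
    intro G; rw [hf]; simp only; split_ifs <;> norm_num
  have hfr : ∀ G, (¬ ∀ v, G.degree v = d) → f G = 0 := by
    intro G hG; rw [hf]; simp only
    rw [if_neg]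
    intro h; exact hG (Finset.mem_filter.1 h).2.1
  have hnum : c ≤ (Pool.Agent.Helper49.Star.step d)^[n] f ⊥ := by
    have h1 := Pool.Agent.Helper49.Star.iter_mono_steps (d := d) hf0 hfr (Nat.sub_le n j)
      (⊥ : SimpleGraph (Fin n))
    refine le_trans ?_ h1
    refine le_trans hcs ?_
    unfold Pool.Agent.Helper49.Star.succp
    apply Pool.Agent.Helper49.Star.iter_le_of_VC (n - j) _ (n - j) 0 (by omega) _
      Pool.Agent.Helper49.Star.VC_bot
    intro G hG
    unfold Pool.Agent.Helper49.Star.reg1
    by_cases hreg : ∀ v, G.degree v = d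
    · rw [if_pos hreg, hf]
      simp only
      rw [if_pos]
      rw [Finset.mem_filter]
      refine ⟨Finset.mem_univ _, hreg, ?_⟩
      obtain ⟨I, hI, hIc⟩ := Pool.Agent.Helper49.Star.indep_of_VC hG
      refine ⟨I, hI, ?_⟩
      have hjI : j ≤ I.card := by omega
      have h2 : n ≤ Y * I.card := hnYj.trans (Nat.mul_le_mul_left _ hjI)
      have h3 : (n : ℝ) ≤ Y * I.card := by exact_mod_cast h2
      exact h3.trans (mul_le_mul_of_nonneg_right hY (Nat.cast_nonneg _))
    · rw [if_neg hreg]; exact hf0 G
  have hden1 : (Pool.Agent.Helper49.Star.step d)^[n] (fun H : SimpleGraph (Fin n) =>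
      if H ∈ Finset.univ.filter (fun H : SimpleGraph (Fin n) => Regular d H)
        then 1 else 0) ⊥ ≤ 1 := by
    apply Pool.Agent.Helper49.Star.iter_le_one
    intro G; split_ifs <;> norm_num
  have hden0 : c ≤ (Pool.Agent.Helper49.Star.step d)^[n] (fun H : SimpleGraph (Fin n) =>
      if H ∈ Finset.univ.filter (fun H : SimpleGraph (Fin n) => Regular d H)
        then 1 else 0) ⊥ := by
    refine hnum.trans ?_
    apply Pool.Agent.Helper49.Star.iter_le_of_VC n _ n 0 (by omega) _ Pool.Agent.Helper49.Star.VC_bot
    intro G _
    rw [hf]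
    by_cases hreg : Regular d G
    · simp only [Finset.mem_filter, Finset.mem_univ, true_and]
      rw [if_pos hreg]
      split_ifs <;> norm_num
    · simp only [Finset.mem_filter, Finset.mem_univ, true_and]
      rw [if_neg hreg, if_neg]
      intro h; exact hreg h.1
  refine ⟨hc.trans_le hden0, ?_⟩
  rw [le_div_iff₀ (by linarith)]
  nlinarith

theorem evenTop_neBot (d : ℕ) : (evenTop d).NeBot := by
  refine Filter.frequently_mem_iff_neBot.1 (Filter.frequently_atTop.2 fun N => ⟨2 * N, by omega, ?_⟩)
  exact ⟨d * N, by ring⟩

/-- **The star `d`-process and the uniform `d`-regular graph are not contiguous** for `d ≥ e ^ 5000`: an independent set of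
`n / d ^ (19/20)` vertices exists with probability `→ 0` for the uniform model and `≥ c > 0` for the star process. -/
theorem result : ∀ d : ℕ, Real.exp 5000 ≤ d → ¬ Contiguous d ∧
    Tendsto (fun n => uniformProb d n (largeIndependent d n)) (evenTop d) (𝓝 0) ∧
    ∃ c : ℝ, 0 < c ∧ ∀ᶠ n in evenTop d, c ≤ starProb d n (largeIndependent d n) := by
  intro d hd
  have hu : Tendsto (fun n => uniformProb d n (largeIndependent d n)) (evenTop d) (𝓝 0) :=
    (uniform_part hd).mono_left inf_le_left
  obtain ⟨c, hc, hs⟩ := star_part hd
  have hs' : ∀ᶠ n in evenTop d,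
      0 < ∑ H ∈ Finset.univ.filter (fun H : SimpleGraph (Fin n) => Regular d H), (step d n ^ n) ⊥ H ∧
      c ≤ starProb d n (largeIndependent d n) := by
    unfold evenTop
    rw [Filter.eventually_inf_principal]
    exact hs
  refine ⟨fun hcon => ?_, hu, c, hc, hs'.mono fun n h => h.2⟩
  have hnb := evenTop_neBot d
  -- the complements
  have h1 : Tendsto (fun n => uniformProb d n (largeIndependent d n)ᶜ) (evenTop d) (𝓝 1) := by
    have h2 : Tendsto (fun n => 1 - uniformProb d n (largeIndependent d n)) (evenTop d) (𝓝 1) := by
      have := hu.const_sub 1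
      rwa [sub_zero] at this
    refine h2.congr' ?_
    filter_upwards [hs'] with n hn
    have hR : 0 < (Finset.univ.filter fun H : SimpleGraph (Fin n) => Regular d H).card := by
      rw [Finset.card_pos]
      by_contra h3
      rw [Finset.not_nonempty_iff_eq_empty] at h3
      rw [h3, Finset.sum_empty] at hn
      exact lt_irrefl _ hn.1
    have hRR : (0 : ℝ) < ((Finset.univ.filter fun H : SimpleGraph (Fin n) => Regular d H).card : ℝ) := by
      exact_mod_cast hR
    unfold uniformProb
    rw [eq_div_iff hRR.ne', sub_mul, one_mul, div_mul_cancel₀ _ hRR.ne', sub_eq_iff_eq_add]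
    rw [← Nat.cast_add]
    congr 1
    rw [← Finset.card_union_of_disjoint]
    · congr 1
      ext H
      simp only [Finset.mem_filter, Finset.mem_univ, true_and, Finset.mem_union, Set.mem_compl_iff]
      tauto
    · rw [Finset.disjoint_left]
      intro H hH hH2
      simp only [Finset.mem_filter, Finset.mem_univ, true_and, Set.mem_compl_iff] at hH hH2
      exact hH.2 hH2.2
  have h2 := (hcon fun n => (largeIndependent d n)ᶜ).1 h1
  have h3 : ∀ᶠ n in evenTop d, starProb d n (largeIndependent d n)ᶜ ≤ 1 - c := by
    filter_upwards [hs'] with n hn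
    obtain ⟨hD, hcn⟩ := hn
    have e : starProb d n (largeIndependent d n)ᶜ = 1 - starProb d n (largeIndependent d n) := by
      unfold starProb
      rw [div_eq_iff hD.ne', sub_mul, one_mul, div_mul_cancel₀ _ hD.ne', eq_sub_iff_add_eq]
      rw [← Finset.sum_union]
      · congr 1
        ext H
        simp only [Finset.mem_filter, Finset.mem_univ, true_and, Finset.mem_union, Set.mem_compl_iff]
        tauto
      · rw [Finset.disjoint_left]
        intro H hH hH2
        simp only [Finset.mem_filter, Finset.mem_univ, true_and, Set.mem_compl_iff] at hH hH2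
        exact hH.2 hH2.2
    linarith
  have h4 := le_of_tendsto h2 h3
  linarith

end Pool.Agent.Results.MP_fb9f4e_pr.LargeDegrees
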